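import Pool.Agent.Work.PathNormal.E

open MeasureTheory

namespace Pool.Agent.Results.MP_8c7e5b_an.PhaseLocked

universe v

variable {H : Type v} [NormedAddCommGroup H] [InnerProductSpace ℂ H] [CompleteSpace H]

/-- The operator `T` has trace `c`: in every countable orthonormal basis `e` the series of the
diagonal entries of `T` converges unconditionally (hence absolutely) to `c`. -/
def HasTrace (T : H →L[ℂ] H) (c : ℂ) : Prop :=
  ∀ (ι : Type) [Countable ι] (e : HilbertBasis ι ℂ H), HasSum (fun i => inner ℂ (e i) (T (e i))) c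

/-- `∫ v · (derivative of f in the direction v) dν` for the real measure `ν = μ₁ - μ₂`. -/
noncomputable def dint (f : ℂ → ℂ) (v : ℂ) (μ₁ μ₂ : Measure ℂ) : ℂ :=
  (∫ z : ℂ, fderiv ℝ f z v ∂μ₁) - ∫ z : ℂ, fderiv ℝ f z v ∂μ₂

/-- The function `f` of the normal operator `N` (continuous functional calculus). -/
noncomputable def func (f : ℂ → ℂ) (N : H →L[ℂ] H) : H →L[ℂ] H := cfc f N

/-- The trace formula with real measures of total mass at most `2 m`: there are finite positive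
measures `μ 0, …, μ 3` of mass at most `m` with
`trace (f(N₂) - f(N₁)) = ∫ f_x d(μ 0 - μ 1) + ∫ f_y d(μ 2 - μ 3)` for all `f` in `C_c^∞`. -/
def TraceFormula (N₁ N₂ : H →L[ℂ] H) (m : ℝ) : Prop :=
  ∃ μ : Fin 4 → Measure ℂ, (∀ i, IsFiniteMeasure (μ i)) ∧ (∀ i, (μ i Set.univ).toReal ≤ m) ∧
    ∀ f : ℂ → ℂ, ContDiff ℝ (⊤ : ℕ∞) f → HasCompactSupport f →
      HasTrace (func f N₂ - func f N₁) (dint f 1 (μ 0) (μ 1) + dint f Complex.I (μ 2) (μ 3))

/-- The trace norm of `T` is at most `M` (nuclear representation). -/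
def TraceNormLE (T : H →L[ℂ] H) (M : ℝ) : Prop :=
  ∃ x y : ℕ → H, Summable (fun k => ‖x k‖ * ‖y k‖) ∧ ∑' k, ‖x k‖ * ‖y k‖ ≤ M ∧
    ∀ z, HasSum (fun k => inner ℂ (y k) z • x k) (T z)

/-- The operator `c [N₁*, N₂]` is self-adjoint. -/
def Locked (N₁ N₂ : H →L[ℂ] H) (c : ℂ) : Prop :=
  IsSelfAdjoint (c • (star N₁ * N₂ - N₂ * star N₁))

theorem nuc_of {T : H →L[ℂ] H} {M : ℝ} (h : TraceNormLE T M) : ∃ τ, Pool.PN.Nuc T M τ := by
  obtain ⟨x, y, h1, h2, h3⟩ := h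
  exact ⟨_, (Pool.PN.nuc_series h1 h3).mono h2⟩

theorem of_path {P : ℝ → H →L[ℂ] H} {L : ℝ} (h : Pool.PN.IsPath P L) :
    TraceFormula (P 0) (P 1) L := by
  obtain ⟨μ, h3, h4, h5⟩ := h.main
  refine ⟨μ, h3, h4, fun f hf hfc => ?_⟩
  have h6 := h5 f hf hfc
  have h7 : dint f 1 (μ 0) (μ 1) + dint f Complex.I (μ 2) (μ 3) =
      (∫ z : ℂ, fderiv ℝ f z 1 ∂(μ 0)) - (∫ z : ℂ, fderiv ℝ f z 1 ∂(μ 1)) +
            (∫ z : ℂ, fderiv ℝ f z Complex.I ∂(μ 2)) -
            (∫ z : ℂ, fderiv ℝ f z Complex.I ∂(μ 3)) := by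
    unfold dint; ring
  rw [h7]
  exact h6

/-- The trace formula for all pairs of bounded normal operators with trace class difference for
which a nonzero multiple of the commutator `[N₁*, N₂]` is self-adjoint. -/
theorem result {H : Type v} [NormedAddCommGroup H] [InnerProductSpace ℂ H] [CompleteSpace H]
    [TopologicalSpace.SeparableSpace H] (N₁ N₂ : H →L[ℂ] H) (h₁ : IsStarNormal N₁)
    (h₂ : IsStarNormal N₂) (c : ℂ) (hc : c ≠ 0) (hK : Locked N₁ N₂ c) (M : ℝ)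
    (hD : TraceNormLE (N₂ - N₁) M) : TraceFormula N₁ N₂ (Real.pi / 2 * M) := by
  obtain ⟨τ, hτ⟩ := nuc_of hD
  obtain ⟨P, p0, p1, hP⟩ := Pool.PN.locked_path h₁ h₂ hc hK hτ
  have := of_path hP
  rwa [p0, p1] at this

end Pool.Agent.Results.MP_8c7e5b_an.PhaseLocked
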